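import Pool.Agent.H.MP_03b314_an.Defs

namespace Pool.Agent.H.MP_03b314_an
open MeasureTheory Finset

noncomputable def Bf (N : ℕ) (a : ℤ → ℂ) (u v : ℕ → ℂ) : ℂ :=
  ∑ j ∈ range N, ∑ i ∈ range N, a (j - i) * u i * v j

def Bd (p q C : ℝ) (N : ℕ) (a : ℤ → ℂ) : Prop := ∀ u v : ℕ → ℂ,
  ∑ i ∈ range N, ‖u i‖ ^ p ≤ 1 → ∑ i ∈ range N, ‖v i‖ ^ q ≤ 1 → ‖Bf N a u v‖ ≤ C

lemma of_InM {p q : ℝ} (h : p.HolderConjugate q) {m : UnitAddCircle → ℂ} (hm : InM p m) :
    ∃ C, ∀ N, Bd p q C N (fourierCoeff m) := by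
  obtain ⟨hi, C, hC⟩ := hm
  have e : ∀ (t : Finset ℤ) (u : ℤ → ℂ) j, fourierCoeff (fun x => m x * ∑ i ∈ t, u i * fourier i x) j =
      ∑ i ∈ t, fourierCoeff m (j - i) * u i := by
    intro t u j
    simp only [fourierCoeff, ← integral_mul_const]
    rw [← integral_finsetSum _ fun i _ => (hi.fourier_smul _).mul_const _]
    congr 1
    funext x
    simp only [smul_eq_mul, mul_sum]
    exact sum_congr rfl fun i _ => by rw [show -(j - i) = -j + i by ring, fourier_add]; ring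
  refine ⟨(max C 0) ^ (1 / p), fun N u v hu hv => ?_⟩
  have a := hC ((range N).map Nat.castEmbedding) ((range N).map Nat.castEmbedding) fun i => u i.toNat
  simp only [e] at a
  simp only [sum_map, Nat.castEmbedding_apply, Int.toNat_natCast] at a
  have p0 := h.pos
  have q0 := h.symm.pos
  simp only [Bf, ← sum_mul]
  refine (norm_sum_le _ _).trans ?_
  simp only [norm_mul]
  refine (Real.inner_le_Lp_mul_Lq_of_nonneg _ h (fun _ _ => norm_nonneg _)
    fun _ _ => norm_nonneg _).trans ?_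
  refine (mul_le_of_le_one_right (by positivity) (Real.rpow_le_one (by positivity) hv
    (by positivity))).trans (Real.rpow_le_rpow (by positivity) (a.trans ?_) (by positivity))
  exact (mul_le_mul_of_nonneg_right (le_max_left _ _) (by positivity)).trans
    (mul_le_of_le_one_right (le_max_right _ _) hu)

lemma two {p q C : ℝ} {N : ℕ} {a : ℤ → ℂ} (h : Bd p q C (N + N) a) {u v : ℕ → ℂ}
    (hu : ∑ i ∈ range N, ‖u i‖ ^ p ≤ 1) (hv : ∑ i ∈ range N, ‖v i‖ ^ q ≤ 1) {α β γ δ : ℝ}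
    (h1 : |α| ^ p + |β| ^ p ≤ 1) (h2 : |γ| ^ q + |δ| ^ q ≤ 1) :
    ‖(α * γ + β * δ) * Bf N a u v + α * δ * Bf N (fun n => a (n + N)) u v +
      β * γ * Bf N (fun n => a (n - N)) u v‖ ≤ C := by
  have k : ∀ (r : ℝ) (w : ℕ → ℂ) (α β : ℝ), ∑ i ∈ range N, ‖w i‖ ^ r ≤ 1 → |α| ^ r + |β| ^ r ≤ 1 →
      ∑ i ∈ range (N + N), ‖if i < N then α * w i else β * w (i - N)‖ ^ r ≤ 1 := by
    intro r w α β h1 h2
    rw [sum_range_add, sum_congr rfl fun i hi => by rw [if_pos (mem_range.1 hi)]]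
    simp only [add_lt_iff_neg_left, not_lt_zero, if_false, Nat.add_sub_cancel_left, norm_mul,
      Complex.norm_real, Real.norm_eq_abs, Real.mul_rpow (abs_nonneg _) (norm_nonneg _), ← mul_sum,
      ← add_mul]
    exact mul_le_one₀ h2 (by positivity) h1
  convert h _ _ (k p u α β hu h1) (k q v γ δ hv h2) using 2
  simp only [Bf, sum_range_add, add_lt_iff_neg_left, not_lt_zero, if_false, Nat.add_sub_cancel_left,
    mul_sum, ← sum_add_distrib]
  refine sum_congr rfl fun j hj => sum_congr rfl fun i hi => ?_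
  rw [if_pos (mem_range.1 hi), if_pos (mem_range.1 hj)]
  push_cast
  rw [show (j : ℤ) - (N + i) = j - i - N by ring, show (N + j : ℤ) - i = j - i + N by ring,
    show (N + j : ℤ) - (N + i) = j - i by ring]
  ring

lemma step {p q : ℝ} (h : p.HolderConjugate q) (h2 : p ≠ 2) : ∃ δ : ℝ, δ ≠ 0 ∧
    ∀ C N a, Bd p q C (N + N) a → Bd p q C N fun n => a n + δ * a (n + N) := by
  have p0 := h.pos
  have q0 := h.symm.pos
  obtain ⟨b, hb⟩ : ∃ b : ℝ, b = 2 ^ (p - 1) := ⟨_, rfl⟩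
  have b0 : 0 < b := by rw [hb]; positivity
  have b1 : (2 : ℝ) ^ p = 2 * b := by rw [hb, Real.rpow_sub_one two_ne_zero]; ring
  have b2 : b ^ q = 2 * b := by rw [← b1, hb, ← Real.rpow_mul zero_le_two, h.sub_one_mul_conj]
  have b3 : b ≠ 2 := fun e => h2 (by
    have : (2 : ℝ) ^ p = 2 ^ (2 : ℝ) := by rw [b1, e]; norm_num
    exact (Real.rpow_right_inj two_pos (by norm_num)).1 this)
  obtain ⟨s, hs⟩ : ∃ s : ℝ, s = (1 + 2 * b)⁻¹ ^ p⁻¹ := ⟨_, rfl⟩
  obtain ⟨t, ht⟩ : ∃ t : ℝ, t = (1 + 2 * b)⁻¹ ^ q⁻¹ := ⟨_, rfl⟩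
  have s0 : 0 < s := by rw [hs]; positivity
  have t0 : 0 < t := by rw [ht]; positivity
  have s1 : s ^ p = (1 + 2 * b)⁻¹ := by rw [hs, Real.rpow_inv_rpow (by positivity) p0.ne']
  have t1 : t ^ q = (1 + 2 * b)⁻¹ := by rw [ht, Real.rpow_inv_rpow (by positivity) q0.ne']
  have st : s * t = (1 + 2 * b)⁻¹ := by
    rw [hs, ht, ← Real.rpow_add (by positivity), h.inv_add_inv_eq_one, Real.rpow_one]
  have c1 : |s| ^ p + |2 * s| ^ p ≤ 1 := by
    rw [abs_of_pos s0, abs_of_pos (by positivity), Real.mul_rpow zero_le_two s0.le, b1, s1]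
    field_simp; rfl
  have c2 : |t| ^ q + |b * t| ^ q ≤ 1 := by
    rw [abs_of_pos t0, abs_of_pos (by positivity), Real.mul_rpow b0.le t0.le, b2, t1]
    field_simp; rfl
  refine ⟨(b - 2) / (1 + 2 * b), div_ne_zero (sub_ne_zero.2 b3) (by positivity),
    fun C N a H u v hu hv => ?_⟩
  have a1 := two H hu hv c1 c2
  have a2 := two H hu hv (α := 2 * s) (β := -s) (γ := b * t) (δ := -t)
    (by rwa [abs_neg, add_comm]) (by rwa [abs_neg, add_comm])
  have e : Bf N (fun n => a n + ((b - 2) / (1 + 2 * b) : ℝ) * a (n + N)) u v = Bf N a u v +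
      ((b - 2) / (1 + 2 * b) : ℝ) * Bf N (fun n => a (n + N)) u v := by
    simp only [Bf, mul_sum, ← sum_add_distrib]
    exact sum_congr rfl fun j _ => sum_congr rfl fun i _ => by ring
  rw [e]
  have a3 := (norm_add_le _ _).trans (add_le_add
    ((norm_smul_le (b / (b + 2)) _).trans (mul_le_mul_of_nonneg_left a1 (norm_nonneg _)))
    ((norm_smul_le (2 / (b + 2)) _).trans (mul_le_mul_of_nonneg_left a2 (norm_nonneg _))))
  rw [Real.norm_of_nonneg (by positivity), Real.norm_of_nonneg (by positivity), ← add_mul,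
    ← add_div, div_self (by positivity), one_mul] at a3
  refine le_trans (le_of_eq (congrArg _ ?_)) a3
  have t2 : (t : ℂ) = (1 + 2 * b : ℂ)⁻¹ / s := by
    have : t = (1 + 2 * b)⁻¹ / s := by rw [← st]; field_simp
    rw [this]; push_cast; rfl
  have n1 : (s : ℂ) ≠ 0 := by exact_mod_cast s0.ne'
  have n2 : (1 + 2 * b : ℂ) ≠ 0 := by exact_mod_cast (by positivity : 1 + 2 * b ≠ 0)
  have n3 : (b + 2 : ℂ) ≠ 0 := by exact_mod_cast (by positivity : b + 2 ≠ 0)
  generalize Bf N (fun n => a (n + N)) u v = X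
  generalize Bf N (fun n => a (n - N)) u v = Y
  simp only [Complex.real_smul]
  push_cast
  rw [t2]
  generalize hc : (1 + 2 * b : ℂ) = c at n2
  field_simp
  rw [← hc]
  ring

lemma iter {p q : ℝ} (h : p.HolderConjugate q) (h2 : p ≠ 2) : ∃ δ : ℝ, δ ≠ 0 ∧
    ∀ C K a, Bd p q C (2 ^ K) a → (∀ n : ℕ, 0 < n → n < 2 ^ K → (∀ k, n ≠ 2 ^ k) → a n = 0) →
      ‖a 0 + δ * ∑ k ∈ range K, a (2 ^ k)‖ ≤ C := by
  obtain ⟨δ, d0, hδ⟩ := step h h2
  refine ⟨δ, d0, fun C K => ?_⟩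
  induction K with
  | zero => intro a H _; simpa [Bf] using H 1 1 (by simp) (by simp)
  | succ K ih =>
    intro a H ha
    rw [pow_succ, mul_two] at H ha
    have z : ∀ n : ℕ, 0 < n → n < 2 ^ K → a (n + (2 ^ K : ℕ)) = 0 := fun n n0 n1 => by
      refine (ha (n + 2 ^ K) (by omega) (by omega) fun k e => ?_)
      have a1 : 2 ^ K < 2 ^ k := by omega
      have a2 : 2 ^ k < 2 ^ (K + 1) := by omega
      rw [Nat.pow_lt_pow_iff_right (by norm_num)] at a1 a2
      omega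
    have := ih _ (hδ C _ a H) fun n n0 n1 n2 => by
      simp only [ha n n0 (by omega) n2, z n n0 n1, mul_zero, add_zero]
    rw [sum_congr (g := fun k => a (2 ^ k)) rfl fun k hk => by
      have := z (2 ^ k) (by positivity) (Nat.pow_lt_pow_right (by norm_num) (mem_range.1 hk))
      push_cast at this ⊢
      simp [this]] at this
    refine le_trans (le_of_eq (congrArg _ ?_)) this
    rw [sum_range_succ]
    simp; ring

lemma one_pow2 {t m n k l : ℕ} (h1 : t ≤ m) (h2 : m < 2 * t) (h3 : t ≤ n) (h4 : n < 2 * t)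
    (e1 : m = 2 ^ k) (e2 : n = 2 ^ l) : m = n := by
  have a1 : 2 ^ k < 2 ^ (l + 1) := by omega
  have a2 : 2 ^ l < 2 ^ (k + 1) := by omega
  rw [Nat.pow_lt_pow_iff_right (by norm_num)] at a1 a2
  rw [e1, e2, show k = l by omega]

lemma hankel {p q : ℝ} (h : p.HolderConjugate q) {f : ℕ → ℂ} (hf : ∀ n, f n ≠ 0 → ∃ k, n = 2 ^ k)
    (hp : Summable fun n => ‖f n‖ ^ p) (hq : Summable fun n => ‖f n‖ ^ q) : HankelBdd p f := by
  have p0 := h.pos
  have q0 := h.symm.pos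
  have one : ∀ (s : Finset ℕ) (P : ℕ → Prop) [DecidablePred P], (∀ a b, P a → P b → a = b) →
      ∑ i ∈ s, (if P i then (1 : ℝ) else 0) ≤ 1 := fun s P _ hP => by
    rw [sum_boole]
    exact_mod_cast card_le_one.2 fun a ha b hb => hP a b (mem_filter.1 ha).2 (mem_filter.1 hb).2
  have inj : ∀ (r : ℝ) (s : Finset ℕ) (c : ℕ), (Summable fun n => ‖f n‖ ^ r) →
      ∑ i ∈ s, ‖f (i + c)‖ ^ r ≤ ∑' n, ‖f n‖ ^ r := fun r s c hr => by
    rw [← sum_image (f := fun n => ‖f n‖ ^ r) (g := (· + c)) fun a _ b _ e => by simpa using e]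
    exact hr.sum_le_tsum _ fun _ _ => by positivity
  obtain ⟨Q, hQ⟩ : ∃ Q, Q = ((1 + ∑' n, ‖f n‖ ^ q) ^ (1 / q)) ^ p := ⟨_, rfl⟩
  have Q0 : 0 ≤ Q := by rw [hQ]; positivity
  refine ⟨Q * (1 + ∑' n, ‖f n‖ ^ p), fun s t g => ?_⟩
  let α : ℕ → ℕ → ℝ := fun j k => if f (k + (j + 1)) = 0 then 0 else if k < j + 1 then 1
    else ‖f (k + (j + 1))‖
  let β : ℕ → ℕ → ℝ := fun j k => if f (k + (j + 1)) = 0 then 0 else if k < j + 1 then
    ‖f (k + (j + 1))‖ * ‖g k‖ else ‖g k‖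
  have a1 : ∀ j ∈ s, ‖∑ k ∈ t, star (f (k + (j + 1))) * g k‖ ^ p ≤ Q * ∑ k ∈ t, β j k ^ p := by
    intro j _
    have b1 : ‖∑ k ∈ t, star (f (k + (j + 1))) * g k‖ ≤ ∑ k ∈ t, β j k * α j k :=
      (norm_sum_le _ _).trans (sum_le_sum fun k _ => by
        simp only [α, β]; split_ifs with e <;> simp [*, mul_comm])
    have β0 : ∀ k, 0 ≤ β j k := fun k => by simp only [β]; positivity
    have α0 : ∀ k, 0 ≤ α j k := fun k => by simp only [α]; positivity
    have b2 := Real.inner_le_Lp_mul_Lq_of_nonneg t h (fun k _ => β0 k) fun k _ => α0 k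
    have b3 : ∑ k ∈ t, α j k ^ q ≤ 1 + ∑' n, ‖f n‖ ^ q := by
      refine le_trans (sum_le_sum fun k _ => ?_) (sum_add_distrib.le.trans (add_le_add
        (one t (fun k => f (k + (j + 1)) ≠ 0 ∧ k < j + 1) fun a b ha hb => ?_) (inj q t (j + 1) hq)))
      · simp only [α]
        by_cases e : f (k + (j + 1)) = 0 <;> by_cases e' : k < j + 1 <;>
          simp [e, e', Real.zero_rpow q0.ne']
        positivity
      · obtain ⟨k, e1⟩ := hf _ ha.1
        obtain ⟨l, e2⟩ := hf _ hb.1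
        have := one_pow2 (t := j + 1) (by omega) (by omega) (by omega) (by omega) e1 e2
        omega
    have b4 : 0 ≤ ∑ k ∈ t, β j k ^ p := sum_nonneg fun k _ => Real.rpow_nonneg (β0 k) _
    have b5 : 0 ≤ ∑ k ∈ t, α j k ^ q := sum_nonneg fun k _ => Real.rpow_nonneg (α0 k) _
    refine (Real.rpow_le_rpow (norm_nonneg _) (b1.trans (b2.trans (mul_le_mul_of_nonneg_left
      (Real.rpow_le_rpow b5 b3 (by positivity)) (by positivity)))) p0.le).trans (le_of_eq ?_)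
    rw [Real.mul_rpow (by positivity) (by positivity), ← hQ, one_div, Real.rpow_inv_rpow b4 p0.ne',
      mul_comm]
  refine (sum_le_sum a1).trans ?_
  rw [← mul_sum, mul_assoc, sum_comm, mul_sum t _ (1 + _)]
  refine mul_le_mul_of_nonneg_left (sum_le_sum fun k _ => ?_) Q0
  refine le_trans (sum_le_sum fun j _ => ?_) ((sum_mul _ _ _).ge.trans (mul_le_mul_of_nonneg_right
    (sum_add_distrib.le.trans (add_le_add (one s (fun j => f (j + (k + 1)) ≠ 0 ∧ ¬ k < j + 1)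
      fun a b ha hb => ?_) (inj p s (k + 1) hp))) (by positivity)))
  · simp only [β]
    rw [show k + (j + 1) = j + (k + 1) by ring]
    by_cases e : f (j + (k + 1)) = 0 <;> by_cases e' : k < j + 1 <;>
      simp [e, e', Real.zero_rpow p0.ne', Real.mul_rpow, add_mul]
    positivity
  · obtain ⟨m, e1⟩ := hf _ ha.1
    obtain ⟨l, e2⟩ := hf _ hb.1
    have := one_pow2 (t := k + 1) (by omega) (by omega) (by omega) (by omega) e1 e2
    omega

end Pool.Agent.H.MP_03b314_an
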