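import Mathlib

namespace Pool.Agent.H.MP_03b314_an
open MeasureTheory

/-- m is a multiplier of the space of p-summable Fourier series. -/
def InM (p : ℝ) (m : UnitAddCircle → ℂ) : Prop :=
  Integrable m AddCircle.haarAddCircle ∧ ∃ C : ℝ, ∀ (s t : Finset ℤ) (u : ℤ → ℂ),
    ∑ j ∈ s, ‖fourierCoeff (fun x => m x * ∑ i ∈ t, u i * fourier i x) j‖ ^ p ≤
      C * ∑ i ∈ t, ‖u i‖ ^ p

/-- The Hankel operator with symbol the conjugate of the series with coefficients f is bounded. -/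
def HankelBdd (p : ℝ) (f : ℕ → ℂ) : Prop :=
  ∃ C : ℝ, ∀ (s t : Finset ℕ) (g : ℕ → ℂ),
    ∑ j ∈ s, ‖∑ k ∈ t, star (f (k + (j + 1))) * g k‖ ^ p ≤ C * ∑ k ∈ t, ‖g k‖ ^ p

end Pool.Agent.H.MP_03b314_an
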